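import Pool.Agent.Y503.HG.Main
import Pool.Agent.Y503.HG.Inf

/-!
# Smooth Riemannian submersions from a Hilbert space onto compact manifolds which are not biquotients

For real numbers `a ≠ 0`, `b` the manifold `R_{a,b}` is `S³ × S³` with the left invariant Riemannian
metric whose value on the Lie algebra `Im ℍ × Im ℍ` is
`|ξ₁|² + |ξ₂|² - (a ⟨ξ₁,i⟩ + b ⟨ξ₂,i⟩)² / (1 + a² + b²)`.
It is the quotient of `S³ × S³ × ℝ` by the line `θ ↦ (e^{aiθ}, e^{biθ}, θ)`.
-/

open scoped Quaternion Matrix.Norms.L2Operator ENNReal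
open Set MeasureTheory

noncomputable section

namespace Pool.Agent.Results.MP_986e36_gt.RiemannianSubmersion

open HQ Pool.Agent.Y503.HS Pool.Agent.Y503.HG

/-- `S³ × S³` with the left invariant Riemannian metric given by the quadratic form `Q` is the target
of a smooth Riemannian submersion from an infinite dimensional real Hilbert space. -/
def IsSubmersionTarget (Q : ℍ × ℍ → ℝ) : Prop :=
  ∃ (H : Type) (_ : NormedAddCommGroup H) (_ : InnerProductSpace ℝ H),
    CompleteSpace H ∧ ¬ FiniteDimensional ℝ H ∧ ∃ f : H → ℍ × ℍ, IsRiemannianSubmersion Q f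

/-- `(R, dR)` is isometric to a quotient `ℋ/Γ` of an infinite dimensional real Hilbert space by a
group of isometries. -/
def IsHilbertQuotient {R : Type} (dR : R → R → ℝ≥0∞) : Prop :=
  ∃ (H : Type) (_ : NormedAddCommGroup H) (_ : InnerProductSpace ℝ H),
    CompleteSpace H ∧ ¬ FiniteDimensional ℝ H ∧ ∃ Γ : Subgroup (Equiv.Perm H),
      IsIsometryGroup (fun x y : H => edist x y) Γ ∧ IsQuotient (fun x y : H => edist x y) Γ dR

/-- `(R, dR)` is a biquotient: it is isometric to `G/Γ`, where `G` is a compact Lie group (a closed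
subgroup of a unitary group) with a bi-invariant Riemannian metric, given by the `Ad`-invariant inner
product `B` on the Lie algebra, and `Γ` is a group of isometries of `G`. -/
def IsBiquotient {R : Type} (dR : R → R → ℝ≥0∞) : Prop :=
  ∃ (N : ℕ) (G : Subgroup (Matrix.unitaryGroup (Fin N) ℂ))
    (B : Matrix (Fin N) (Fin N) ℂ →ₗ[ℝ] Matrix (Fin N) (Fin N) ℂ →ₗ[ℝ] ℝ),
    IsClosed (G : Set (Matrix.unitaryGroup (Fin N) ℂ)) ∧ IsBiinvariant G B ∧
      ∃ Γ : Subgroup (Equiv.Perm G), IsIsometryGroup (dG G B) Γ ∧ IsQuotient (dG G B) Γ dR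

/-- For all real `a ≠ 0` and `b` with `b/a` irrational, the compact simply connected Riemannian
manifold `S³ × S³` with the left invariant metric `QF a b`, whose Riemannian distance is `dMg a b`,
is the target of a smooth Riemannian submersion from a Hilbert space, and also a quotient of a
Hilbert space by a group of isometries, but it is not a biquotient. -/
theorem result (a b : ℝ) (ha : a ≠ 0) (hab : Irrational (b / a)) :
    CompactSpace S33 ∧ SimplyConnectedSpace S33 ∧ (∀ ξ : ℍ × ℍ, ξ ≠ 0 → 0 < QF a b ξ) ∧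
      (∀ p q : S33, dMg a b p q ≠ ⊤ ∧ (dMg a b p q = 0 ↔ p = q)) ∧
      IsSubmersionTarget (QF a b) ∧ IsHilbertQuotient (dMg a b) ∧ ¬ IsBiquotient (dMg a b) := by
  refine ⟨S33_top.1, S33_top.2, QF_pos a b, ?_, ?_, ?_, ?_⟩
  · intro p q
    obtain ⟨h0, h1, -, -, -, -⟩ :=
      dFg_metric a b (p : ℍ × ℍ) (q : ℍ × ℍ) (q : ℍ × ℍ) p.2 q.2 q.2
    rw [dMg_eq]
    refine ⟨ENNReal.ofReal_ne_top, fun h => ?_, fun h => ?_⟩
    · exact Subtype.ext (eq_of_dFg_le p.2 q.2 (ENNReal.ofReal_eq_zero.1 h))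
    · subst h
      rw [h1, ENNReal.ofReal_zero]
  · exact ⟨HH, inferInstance, inferInstance, inferInstance, HH_infinite, ff a b,
      isRiemannianSubmersion_ff a b⟩
  · obtain ⟨Γ, h1, h2⟩ := hilbert_partg a b
    exact ⟨UniformSpace.Completion Ctrl, inferInstance, inferInstance, inferInstance,
      ctrl_infinite, Γ, h1, h2⟩
  · rintro ⟨N, G, B, hG, hB, Γ, -, hq⟩
    exact not_biquotientg ha hab G hG B hB Γ hq

end Pool.Agent.Results.MP_986e36_gt.RiemannianSubmersion
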